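import Pool.Agent.MP_942673_co.Nb.Near

/-! Graphs of APN functions: Sidon property, no affine component, one-point changes. -/

open Finset

namespace Pool.Agent.MP_942673_co.Nb

/-- the sign character of `ZMod 2` -/
def sz (t : ZMod 2) : ℤ := if t = 0 then 1 else -1

theorem sz_add (s t : ZMod 2) : sz (s + t) = sz s * sz t := by
  revert s t
  decide

theorem sz_cases (t : ZMod 2) : sz t = 1 ∨ sz t = -1 := by
  revert t
  decide

theorem z2_cases (t : ZMod 2) : t = 0 ∨ t = 1 := by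
  revert t
  decide

variable {n : ℕ}

theorem v_two (x : Fin n → ZMod 2) : x + x = 0 := by
  funext i
  exact CharTwo.add_self_eq_zero (x i)

theorem v_canc (x y : Fin n → ZMod 2) : x + (x + y) = y := by
  rw [← add_assoc, v_two, zero_add]

theorem v_eq {x y : Fin n → ZMod 2} (h : x + y = 0) : x = y := by
  have := v_canc x y
  rwa [h, add_zero] at this

theorem exists_dot {v : Fin n → ZMod 2} (hv : v ≠ 0) : ∃ y : Fin n → ZMod 2, y ⬝ᵥ v = 1 := by
  obtain ⟨i, hi⟩ : ∃ i, v i ≠ 0 := by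
    by_contra h
    push Not at h
    exact hv (funext h)
  exact ⟨Pi.single i 1, by rw [single_dotProduct, one_mul, (z2_cases (v i)).resolve_left hi]⟩

theorem sum_sz (v : Fin n → ZMod 2) :
    ∑ b : Fin n → ZMod 2, sz (b ⬝ᵥ v) = if v = 0 then 2 ^ n else 0 := by
  split_ifs with hv
  · subst hv
    simp [sz, ZMod.card]
  · obtain ⟨y, hy⟩ := exists_dot hv
    have key : ∑ b : Fin n → ZMod 2, sz (b ⬝ᵥ v) = ∑ b : Fin n → ZMod 2, sz ((b + y) ⬝ᵥ v) :=
      (Equiv.sum_comp (Equiv.addRight y) (fun b => sz (b ⬝ᵥ v))).symm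
    have h1 : sz 1 = -1 := by decide
    have h2 : ∀ b : Fin n → ZMod 2, sz ((b + y) ⬝ᵥ v) = -sz (b ⬝ᵥ v) := by
      intro b
      rw [add_dotProduct, hy, sz_add, h1]
      ring
    simp only [h2, Finset.sum_neg_distrib] at key
    linarith

/-- the duality on `F₂ⁿ × F₂ⁿ` -/
def ch (ξ x : (Fin n → ZMod 2) × (Fin n → ZMod 2)) : ℝ :=
  ((sz (ξ.1 ⬝ᵥ x.1) * sz (ξ.2 ⬝ᵥ x.2) : ℤ) : ℝ)

theorem card_A : (Fintype.card ((Fin n → ZMod 2) × (Fin n → ZMod 2)) : ℝ) = ((2 : ℝ) ^ n) ^ 2 := by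
  simp [ZMod.card, pow_two]

theorem bich : Bich (ch (n := n)) where
  add ξ x y := by
    simp only [ch, Prod.fst_add, Prod.snd_add, dotProduct_add, sz_add]
    push_cast
    ring
  symm ξ x := by simp only [ch, dotProduct_comm]
  sgn ξ x := by
    rcases sz_cases (ξ.1 ⬝ᵥ x.1) with h | h <;> rcases sz_cases (ξ.2 ⬝ᵥ x.2) with h' | h' <;>
      simp [ch, h, h']
  orth x := by
    simp only [ch]
    rw [← Int.cast_sum, Fintype.sum_prod_type]
    simp only [← Finset.mul_sum, ← Finset.sum_mul, sum_sz]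
    rw [card_A]
    by_cases h1 : x.1 = 0 <;> by_cases h2 : x.2 = 0 <;> simp [h1, h2, Prod.ext_iff, pow_two]
  two x := Prod.ext (v_two x.1) (v_two x.2)

/-- every derivative equation has at most two solutions -/
def APN (F : (Fin n → ZMod 2) → (Fin n → ZMod 2)) : Prop :=
  ∀ a : Fin n → ZMod 2, a ≠ 0 → ∀ b : Fin n → ZMod 2,
    (Finset.univ.filter (fun x : Fin n → ZMod 2 => F (x + a) + F x = b)).card ≤ 2

theorem apn_four {F : (Fin n → ZMod 2) → (Fin n → ZMod 2)} (hF : APN F)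
    {x y x' y' : Fin n → ZMod 2} (hxy : x ≠ y) (h1 : x + y = x' + y')
    (h2 : F x + F y = F x' + F y') : x' = x ∨ x' = y := by
  by_contra h
  push Not at h
  have ha : x + y ≠ 0 := fun h0 => hxy (v_eq h0)
  have hsub : ({x, y, x'} : Finset (Fin n → ZMod 2)) ⊆
      Finset.univ.filter (fun t => F (t + (x + y)) + F t = F x + F y) := by
    intro t ht
    simp only [Finset.mem_insert, Finset.mem_singleton] at ht
    rw [Finset.mem_filter]
    refine ⟨Finset.mem_univ _, ?_⟩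
    rcases ht with rfl | rfl | rfl
    · rw [v_canc, add_comm]
    · rw [add_comm x t, v_canc]
    · rw [h1, v_canc, h2, add_comm]
  have h3 := (Finset.card_le_card hsub).trans (hF _ ha _)
  rw [Finset.card_eq_three.mpr ⟨x, y, x', hxy, h.1.symm, h.2.symm, rfl⟩] at h3
  omega

/-- the graph -/
def gr (F : (Fin n → ZMod 2) → (Fin n → ZMod 2)) : Finset ((Fin n → ZMod 2) × (Fin n → ZMod 2)) :=
  Finset.univ.image fun x => (x, F x)

theorem gr_inj (F : (Fin n → ZMod 2) → (Fin n → ZMod 2)) :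
    Function.Injective fun x => (x, F x) := fun _ _ h => congrArg Prod.fst h

theorem card_gr (F : (Fin n → ZMod 2) → (Fin n → ZMod 2)) : ((gr F).card : ℝ) = 2 ^ n := by
  rw [gr, Finset.card_image_of_injective _ (gr_inj F)]
  simp [ZMod.card]

theorem mem_gr {F : (Fin n → ZMod 2) → (Fin n → ZMod 2)}
    {p : (Fin n → ZMod 2) × (Fin n → ZMod 2)} (hp : p ∈ gr F) : ∃ x, p = (x, F x) := by
  obtain ⟨x, _, h⟩ := Finset.mem_image.mp hp
  exact ⟨x, h.symm⟩

theorem sum_gr (F : (Fin n → ZMod 2) → (Fin n → ZMod 2))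
    (f : (Fin n → ZMod 2) × (Fin n → ZMod 2) → ℝ) : ∑ p ∈ gr F, f p = ∑ x, f (x, F x) :=
  Finset.sum_image fun _ _ _ _ h => gr_inj F h

theorem sid_gr {F : (Fin n → ZMod 2) → (Fin n → ZMod 2)} (hF : APN F) : Sid (gr F) := by
  intro p hp q hq p' hp' q' hq' hne h
  obtain ⟨x, rfl⟩ := mem_gr hp
  obtain ⟨y, rfl⟩ := mem_gr hq
  obtain ⟨x', rfl⟩ := mem_gr hp'
  obtain ⟨y', rfl⟩ := mem_gr hq'
  have hxy : x ≠ y := fun h0 => hne (by rw [h0])
  have e1 : x + y = x' + y' := congrArg Prod.fst h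
  have e2 : F x + F y = F x' + F y' := congrArg Prod.snd h
  rcases apn_four hF hxy e1 e2 with h1 | h1
  · exact Or.inl (by rw [h1])
  · exact Or.inr (by rw [h1])

/-- parity argument: the components in a hyperplane are not all bent -/
theorem not_all_bent (hn : 3 ≤ n) (F : (Fin n → ZMod 2) → (Fin n → ZMod 2))
    {y : Fin n → ZMod 2} (hy : y ≠ 0)
    (hb : ∀ v : Fin n → ZMod 2, v ≠ 0 → v ⬝ᵥ y = 0 → (∑ x, sz (v ⬝ᵥ F x)) ^ 2 = 2 ^ n) : False := by
  obtain ⟨m, rfl⟩ : ∃ m, n = m + 3 := ⟨n - 3, by omega⟩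
  set U := Finset.univ.filter fun v : Fin (m + 3) → ZMod 2 => v ≠ 0 ∧ v ⬝ᵥ y = 0 with hU
  have split : ∀ g : (Fin (m + 3) → ZMod 2) → ℤ,
      ∑ v, g v * (1 + sz (v ⬝ᵥ y)) = 2 * g 0 + 2 * ∑ v ∈ U, g v := by
    intro g
    have h1 : ∀ v, g v * (1 + sz (v ⬝ᵥ y)) =
        (if v = 0 then 2 * g 0 else 0) + 2 * (if v ≠ 0 ∧ v ⬝ᵥ y = 0 then g v else 0) := by
      intro v
      by_cases h0 : v = 0
      · subst h0
        simp [sz]
        ring
      · by_cases h2 : v ⬝ᵥ y = 0 <;> simp [sz, h0, h2]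
        ring
    simp only [h1]
    rw [Finset.sum_add_distrib, Finset.sum_ite_eq', ← Finset.mul_sum, hU, Finset.sum_filter]
    simp
  have c1 := split fun _ => 1
  simp only [one_mul, Finset.sum_add_distrib, sum_sz, if_neg hy, Finset.sum_const,
    Finset.card_univ, nsmul_eq_mul, mul_one] at c1
  have cV : ((Fintype.card (Fin (m + 3) → ZMod 2) : ℕ) : ℤ) = 8 * 2 ^ m := by
    simp [ZMod.card]
    ring
  rw [cV] at c1
  have c2 := split fun v => ∑ x, sz (v ⬝ᵥ F x)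
  have c3 : (8 * 2 ^ m : ℤ) ∣ ∑ v, (∑ x, sz (v ⬝ᵥ F x)) * (1 + sz (v ⬝ᵥ y)) := by
    simp only [Finset.sum_mul]
    rw [Finset.sum_comm]
    refine Finset.dvd_sum fun x _ => ?_
    have h1 : ∀ v : Fin (m + 3) → ZMod 2, sz (v ⬝ᵥ F x) * (1 + sz (v ⬝ᵥ y)) =
        sz (v ⬝ᵥ F x) + sz (v ⬝ᵥ (F x + y)) := by
      intro v
      rw [dotProduct_add, sz_add]
      ring
    simp only [h1, Finset.sum_add_distrib, sum_sz]
    have h2 : (2 : ℤ) ^ (m + 3) = 8 * 2 ^ m := by ring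
    rw [h2]
    split_ifs <;> simp
  have c4 : ∑ x, sz ((0 : Fin (m + 3) → ZMod 2) ⬝ᵥ F x) = 8 * 2 ^ m := by
    simp [sz, ZMod.card]
    ring
  rw [c2, c4] at c3
  obtain ⟨r, hr⟩ := c3
  set T := ∑ v ∈ U, ∑ x, sz (v ⬝ᵥ F x) with hT
  have c5 : (16 * 2 ^ m : ℤ) ∣ T ^ 2 - 8 * 2 ^ m * (U.card : ℤ) ^ 2 := by
    have h1 : T ^ 2 - 8 * 2 ^ m * (U.card : ℤ) ^ 2 = ∑ v ∈ U, ∑ v' ∈ U,
        ((∑ x, sz (v ⬝ᵥ F x)) * (∑ x, sz (v' ⬝ᵥ F x)) - 8 * 2 ^ m) := by
      simp only [Finset.sum_sub_distrib, Finset.sum_const, nsmul_eq_mul]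
      rw [← Finset.sum_mul_sum, ← hT]
      ring
    rw [h1]
    refine Finset.dvd_sum fun v hv => Finset.dvd_sum fun v' hv' => ?_
    have a1 := hb v (Finset.mem_filter.mp hv).2.1 (Finset.mem_filter.mp hv).2.2
    have a2 := hb v' (Finset.mem_filter.mp hv').2.1 (Finset.mem_filter.mp hv').2.2
    have a3 : ((∑ x, sz (v ⬝ᵥ F x)) * ∑ x, sz (v' ⬝ᵥ F x)) ^ 2 = (8 * 2 ^ m) ^ 2 := by
      rw [mul_pow, a1, a2]
      ring
    rcases sq_eq_sq_iff_eq_or_eq_neg.mp a3 with h | h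
    · rw [h]
      simp
    · rw [h]
      exact ⟨-1, by ring⟩
  obtain ⟨s, hs⟩ := c5
  have c6 : T = 4 * 2 ^ m * (r - 2) := by linarith
  have c7 : (U.card : ℤ) = 4 * 2 ^ m - 1 := by linarith
  rw [c6, c7] at hs
  have hP : (8 * 2 ^ m : ℤ) ≠ 0 := by positivity
  have c8 : 2 * (2 ^ m * (r - 2) ^ 2) - 2 * (8 * (2 ^ m) ^ 2 - 4 * 2 ^ m) - 1 = 2 * s := by
    apply mul_left_cancel₀ hP
    linarith
  omega

/-- an APN function has no affine component -/
theorem no_affine (hn : 3 ≤ n) {F : (Fin n → ZMod 2) → (Fin n → ZMod 2)} (hF : APN F)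
    (ξ : (Fin n → ZMod 2) × (Fin n → ZMod 2)) (hξ : ξ ≠ 0) (σ : ℝ) :
    ∃ p ∈ gr F, ch ξ p ≠ σ := by
  by_contra hcon
  push Not at hcon
  have H := bich (n := n)
  have hS := sid_gr hF
  set N : ℝ := 2 ^ n with hN
  have hN0 : 0 < N := by positivity
  have hσ : σ ^ 2 = 1 := by
    have h1 := hcon (0, F 0) (Finset.mem_image.mpr ⟨0, Finset.mem_univ _, rfl⟩)
    rw [← h1, pow_two, H.mul_self]
  have w0 : ∀ u : Fin n → ZMod 2, ∑ p ∈ gr F, ch (u, 0) p = if u = 0 then N else 0 := by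
    intro u
    rw [sum_gr]
    have h0 : sz 0 = 1 := by decide
    simp only [ch, zero_dotProduct, h0, mul_one, dotProduct_comm u]
    rw [← Int.cast_sum, sum_sz]
    split_ifs <;> simp [hN]
  have w1 : ∀ ζ, ∑ p ∈ gr F, ch (ζ + ξ) p = σ * ∑ p ∈ gr F, ch ζ p := by
    intro ζ
    rw [Finset.mul_sum]
    refine Finset.sum_congr rfl fun p hp => ?_
    rw [H.add_left, hcon p hp, mul_comm]
  have hv : ξ.2 ≠ 0 := by
    intro h
    have h1 : ξ = (ξ.1, 0) := Prod.ext rfl h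
    have h2 : ξ.1 ≠ 0 := fun h0 => hξ (Prod.ext h0 h)
    have h3 := w1 (0, 0)
    rw [w0, if_pos rfl, Prod.mk_zero_zero, zero_add, h1, w0, if_neg h2] at h3
    have h4 : σ = 0 := by
      rcases mul_eq_zero.mp h3.symm with h | h
      · exact h
      · exact absurd h hN0.ne'
    rw [h4] at hσ
    norm_num at hσ
  have cV : (Fintype.card (Fin n → ZMod 2) : ℝ) = N := by simp [ZMod.card, hN]
  set g : (Fin n → ZMod 2) → ℝ := fun v => ∑ u, syn ch (gf (gr F)) (u, v) ^ 2 with hg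
  have g0 : ∀ v, 0 ≤ g v := fun v => Finset.sum_nonneg fun u _ => sq_nonneg _
  have gs : ∑ v, g v = N ^ 4 := by
    have h1 := parseval_sq H (gf (gr F))
    simp only [gf_sq, Finset.sum_const, Finset.card_univ, nsmul_eq_mul, card_A] at h1
    rw [Fintype.sum_prod_type_right] at h1
    rw [hg, h1, ← hN]
    ring
  have ga : g 0 = N ^ 3 := by
    have h1 : ∀ u : Fin n → ZMod 2, syn ch (gf (gr F)) (u, 0) ^ 2 = N ^ 2 := by
      intro u
      rw [syn_gf H hS, w0, card_gr, card_A, ← hN]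
      by_cases hu : u = 0
      · subst hu
        simp
      · simp [hu]
    simp only [hg, h1, Finset.sum_const, Finset.card_univ, nsmul_eq_mul, cV]
    ring
  have gb : g ξ.2 = N ^ 4 - N ^ 3 := by
    have h1 : ∀ u : Fin n → ZMod 2, syn ch (gf (gr F)) (u + ξ.1, ξ.2) ^ 2 =
        N ^ 2 + if u = 0 then N ^ 4 - 2 * N ^ 3 else 0 := by
      intro u
      have e : (u + ξ.1, ξ.2) = (u, 0) + ξ := Prod.ext rfl (zero_add _).symm
      have e2 : (u + ξ.1, ξ.2) ≠ 0 := fun h => hv (congrArg Prod.snd h)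
      rw [syn_gf H hS, if_neg e2, e, w1, w0, card_gr, ← hN, mul_pow, hσ]
      split_ifs <;> ring
    simp only [hg]
    rw [← Equiv.sum_comp (Equiv.addRight ξ.1)]
    simp only [Equiv.coe_addRight, h1]
    rw [Finset.sum_add_distrib, Finset.sum_ite_eq']
    simp only [Finset.sum_const, Finset.card_univ, nsmul_eq_mul, cV, Finset.mem_univ, if_true]
    ring
  obtain ⟨y, hy⟩ := exists_dot hv
  have hy0 : y ≠ 0 := by
    rintro rfl
    simp at hy
  refine not_all_bent hn F hy0 fun v hv0 hvy => ?_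
  have hv1 : v ≠ ξ.2 := by
    rintro rfl
    rw [dotProduct_comm, hvy] at hy
    exact zero_ne_one hy
  have h1 : ∑ t ∈ ({0, ξ.2, v} : Finset (Fin n → ZMod 2)), g t ≤ ∑ t, g t :=
    Finset.sum_le_sum_of_subset_of_nonneg (Finset.subset_univ _) fun t _ _ => g0 t
  rw [Finset.sum_insert (by simp [hv.symm, hv0.symm]), Finset.sum_pair hv1.symm, ga, gb, gs] at h1
  have h2 : syn ch (gf (gr F)) (0, v) ^ 2 ≤ g v :=
    Finset.single_le_sum (f := fun u => syn ch (gf (gr F)) (u, v) ^ 2)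
      (fun u _ => sq_nonneg _) (Finset.mem_univ 0)
  have h3 : syn ch (gf (gr F)) (0, v) = 0 :=
    pow_eq_zero_iff (two_ne_zero) |>.mp (le_antisymm (by linarith) (sq_nonneg _))
  have e2 : ((0 : Fin n → ZMod 2), v) ≠ 0 := fun h => hv0 (congrArg Prod.snd h)
  have h0 : sz 0 = 1 := by decide
  rw [syn_gf H hS, if_neg e2, card_gr, sum_gr] at h3
  simp only [ch, zero_dotProduct, h0, one_mul] at h3
  have h4 : ((∑ x, sz (v ⬝ᵥ F x) : ℤ) : ℝ) ^ 2 = 2 ^ n := by
    rw [Int.cast_sum]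
    linarith
  exact_mod_cast h4

/-- the new point of an APN one-point change can be added to the graph -/
theorem addable {F G : (Fin n → ZMod 2) → (Fin n → ZMod 2)} (hG : APN G) {t : Fin n → ZMod 2}
    (h1 : ∀ x, x ≠ t → G x = F x) (h2 : G t ≠ F t) :
    ∀ p ∈ gr F, ¬ Gam (gr F) ((t, G t) + p) := by
  rintro p hp ⟨q, hq, q', hq', hne, h⟩
  obtain ⟨x, rfl⟩ := mem_gr hp
  obtain ⟨y, rfl⟩ := mem_gr hq
  obtain ⟨y', rfl⟩ := mem_gr hq'
  have hyy : y ≠ y' := fun h0 => hne (by rw [h0])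
  have e1 : y + y' = t + x := congrArg Prod.fst h
  have e2 : F y + F y' = G t + F x := congrArg Prod.snd h
  have hy : y ≠ t := by
    rintro rfl
    rw [add_left_cancel e1] at e2
    exact h2 (add_right_cancel e2).symm
  have hy' : y' ≠ t := by
    rintro rfl
    rw [add_comm y] at e1
    rw [add_left_cancel e1, add_comm] at e2
    exact h2 (add_right_cancel e2).symm
  have hx : x ≠ t := by
    rintro rfl
    rw [v_two] at e1
    exact hyy (v_eq e1)
  rw [← h1 y hy, ← h1 y' hy', ← h1 x hx] at e2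
  rcases apn_four hG hyy e1 e2 with h | h
  · exact hy h.symm
  · exact hy' h.symm

theorem neighbours (F : (Fin n → ZMod 2) → (Fin n → ZMod 2)) (hF : APN F) :
    {G | APN G ∧ hammingDist F G = 1}.ncard ^ 2 ≤ 10 ^ 6 * 8 ^ n := by
  set E := Finset.univ.filter fun z => ∀ p ∈ gr F, ¬ Gam (gr F) (z + p) with hE
  have hsub : {G | APN G ∧ hammingDist F G = 1} ⊆
      (fun z : (Fin n → ZMod 2) × (Fin n → ZMod 2) => Function.update F z.1 z.2) '' ↑E := by
    rintro G ⟨hG, hd⟩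
    obtain ⟨t, ht⟩ := Finset.card_eq_one.mp hd
    have h1 : ∀ x, x ≠ t → G x = F x := by
      intro x hx
      by_contra h
      have : x ∈ ({t} : Finset (Fin n → ZMod 2)) := by
        rw [← ht]
        exact Finset.mem_filter.mpr ⟨Finset.mem_univ _, fun h0 => h h0.symm⟩
      exact hx (Finset.mem_singleton.mp this)
    have h2 : G t ≠ F t := by
      have : t ∈ ({t} : Finset (Fin n → ZMod 2)) := Finset.mem_singleton_self t
      rw [← ht] at this
      exact fun h0 => (Finset.mem_filter.mp this).2 h0.symm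
    refine ⟨(t, G t), Finset.mem_coe.mpr (Finset.mem_filter.mpr
      ⟨Finset.mem_univ _, addable hG h1 h2⟩), ?_⟩
    funext x
    by_cases hx : x = t
    · subst hx
      simp
    · simp [hx, h1 x hx]
  have hle : {G | APN G ∧ hammingDist F G = 1}.ncard ≤ E.card := by
    refine (Set.ncard_le_ncard hsub (Set.toFinite _)).trans ?_
    rw [← Set.ncard_coe_finset]
    exact Set.ncard_image_le (Set.toFinite _)
  refine (Nat.pow_le_pow_left hle 2).trans ?_
  have hreal : (E.card : ℝ) ^ 2 ≤ 10 ^ 6 * ((2 : ℝ) ^ n) ^ 3 := by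
    by_cases hn : 3 ≤ n
    · have := sidon_bound (bich (n := n)) (E := E) (sid_gr hF) (by rw [card_gr]; positivity)
        (by rw [card_gr, card_A]) (fun z hz => (Finset.mem_filter.mp hz).2) (no_affine hn hF)
      rwa [card_gr] at this
    · have h1 : (E.card : ℝ) ≤ ((2 : ℝ) ^ n) ^ 2 := by
        rw [← card_A]
        exact_mod_cast Finset.card_le_univ E
      have h2 : (2 : ℝ) ^ n ≤ 2 ^ 2 := pow_le_pow_right₀ (by norm_num) (by omega)
      have h3 : (E.card : ℝ) ^ 2 ≤ (((2 : ℝ) ^ n) ^ 2) ^ 2 :=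
        pow_le_pow_left₀ (Nat.cast_nonneg _) h1 2
      have h4 : 0 < ((2 : ℝ) ^ n) ^ 3 := by positivity
      nlinarith
  have h8 : ((2 : ℝ) ^ n) ^ 3 = 8 ^ n := by
    rw [← pow_mul, mul_comm, pow_mul]
    norm_num
  rw [h8] at hreal
  exact_mod_cast hreal

end Pool.Agent.MP_942673_co.Nb
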