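import Mathlib

/-! Real Fourier analysis on a finite group of exponent two. -/

set_option linter.unusedSectionVars false

open Finset

namespace Pool.Agent.MP_942673_co.Nb

/-- a symmetric sign valued duality on a finite group of exponent two -/
structure Bich {A : Type} [AddCommGroup A] [Fintype A] [DecidableEq A] (χ : A → A → ℝ) : Prop where
  add : ∀ ξ x y, χ ξ (x + y) = χ ξ x * χ ξ y
  symm : ∀ ξ x, χ ξ x = χ x ξ
  sgn : ∀ ξ x, χ ξ x = 1 ∨ χ ξ x = -1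
  orth : ∀ x, ∑ ξ, χ ξ x = if x = 0 then (Fintype.card A : ℝ) else 0
  two : ∀ x : A, x + x = 0

variable {A : Type} [AddCommGroup A] [Fintype A] [DecidableEq A] {χ : A → A → ℝ}

/-- the function with coefficients `b` -/
noncomputable def syn (χ : A → A → ℝ) (b : A → ℝ) (x : A) : ℝ := ∑ ξ, b ξ * χ ξ x

/-- convolution of coefficient vectors -/
noncomputable def conv (b c : A → ℝ) (ζ : A) : ℝ := ∑ ξ, b ξ * c (ξ + ζ)

theorem Bich.eq_of_add (H : Bich χ) {x y : A} : x + y = 0 ↔ x = y := by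
  constructor
  · intro h
    have : x + y + y = y := by rw [h, zero_add]
    rwa [add_assoc, H.two, add_zero] at this
  · rintro rfl
    exact H.two x

theorem Bich.canc (H : Bich χ) (x y : A) : x + y + y = x := by
  rw [add_assoc, H.two, add_zero]

theorem Bich.canc' (H : Bich χ) (x y : A) : x + (x + y) = y := by
  rw [← add_assoc, H.two, zero_add]

theorem Bich.mul_self (H : Bich χ) (ξ x : A) : χ ξ x * χ ξ x = 1 := by
  rcases H.sgn ξ x with h | h <;> simp [h]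

theorem Bich.zero_right (H : Bich χ) (ξ : A) : χ ξ 0 = 1 := by
  rw [← H.two 0, H.add, H.mul_self]

theorem Bich.zero_left (H : Bich χ) (x : A) : χ 0 x = 1 := by
  rw [H.symm, H.zero_right]

theorem Bich.add_left (H : Bich χ) (ξ ζ x : A) : χ (ξ + ζ) x = χ ξ x * χ ζ x := by
  rw [H.symm, H.add, H.symm x ξ, H.symm x ζ]

theorem Bich.orth' (H : Bich χ) (ξ : A) :
    ∑ x, χ ξ x = if ξ = 0 then (Fintype.card A : ℝ) else 0 := by
  rw [← H.orth ξ]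
  exact Finset.sum_congr rfl fun x _ => H.symm _ _

theorem Bich.abs_le (H : Bich χ) (ξ x : A) : |χ ξ x| = 1 := by
  rcases H.sgn ξ x with h | h <;> simp [h]

theorem parseval (H : Bich χ) (b c : A → ℝ) :
    ∑ x, syn χ b x * syn χ c x = (Fintype.card A : ℝ) * ∑ ξ, b ξ * c ξ := by
  have h1 : ∀ x, syn χ b x * syn χ c x = ∑ ξ, ∑ ζ, b ξ * c ζ * χ (ξ + ζ) x := by
    intro x
    rw [syn, syn, Finset.sum_mul_sum]
    refine Finset.sum_congr rfl fun ξ _ => Finset.sum_congr rfl fun ζ _ => ?_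
    rw [H.add_left]
    ring
  simp only [h1]
  rw [Finset.sum_comm, Finset.mul_sum]
  refine Finset.sum_congr rfl fun ξ _ => ?_
  rw [Finset.sum_comm]
  simp only [← Finset.mul_sum, H.orth', H.eq_of_add]
  simp only [mul_ite, mul_zero]
  rw [Finset.sum_ite_eq]
  simp only [Finset.mem_univ, if_true]
  ring

theorem parseval_sq (H : Bich χ) (b : A → ℝ) :
    ∑ x, syn χ b x ^ 2 = (Fintype.card A : ℝ) * ∑ ξ, b ξ ^ 2 := by
  simp only [pow_two]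
  exact parseval H b b

theorem syn_syn (H : Bich χ) (b : A → ℝ) (ζ : A) :
    syn χ (syn χ b) ζ = (Fintype.card A : ℝ) * b ζ := by
  have h1 : ∀ x, syn χ b x * χ x ζ = ∑ ξ, b ξ * χ (ξ + ζ) x := by
    intro x
    rw [syn, Finset.sum_mul]
    refine Finset.sum_congr rfl fun ξ _ => ?_
    rw [H.add_left, H.symm x ζ]
    ring
  rw [syn]
  simp only [h1]
  rw [Finset.sum_comm]
  simp only [← Finset.mul_sum, H.orth', H.eq_of_add]
  simp only [mul_ite, mul_zero]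
  rw [Finset.sum_ite_eq']
  simp only [Finset.mem_univ, if_true]
  ring

theorem syn_mul (H : Bich χ) (b c : A → ℝ) (x : A) :
    syn χ b x * syn χ c x = syn χ (conv b c) x := by
  simp only [syn, conv, Finset.sum_mul]
  rw [Finset.sum_comm]
  refine Finset.sum_congr rfl fun ξ _ => ?_
  rw [Finset.mul_sum, ← Equiv.sum_comp (Equiv.addLeft ξ)]
  refine Finset.sum_congr rfl fun ζ _ => ?_
  simp only [Equiv.coe_addLeft]
  rw [H.add_left]
  have := H.mul_self ξ x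
  calc b ξ * χ ξ x * (c (ξ + ζ) * (χ ξ x * χ ζ x))
      = b ξ * c (ξ + ζ) * χ ζ x * (χ ξ x * χ ξ x) := by ring
    _ = b ξ * c (ξ + ζ) * χ ζ x := by rw [this, mul_one]

theorem syn_add (b c : A → ℝ) (x : A) :
    syn χ (fun ξ => b ξ + c ξ) x = syn χ b x + syn χ c x := by
  simp only [syn, add_mul, Finset.sum_add_distrib]

theorem syn_sq_le (H : Bich χ) {b : A → ℝ} (hb : ∀ ξ, 0 ≤ b ξ) (x : A) :
    syn χ b x ^ 2 ≤ (∑ ξ, b ξ) ^ 2 := by
  apply sq_le_sq'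
  · rw [syn, ← Finset.sum_neg_distrib]
    refine Finset.sum_le_sum fun ξ _ => ?_
    rcases H.sgn ξ x with h | h <;> rw [h] <;> linarith [hb ξ]
  · rw [syn]
    refine Finset.sum_le_sum fun ξ _ => ?_
    rcases H.sgn ξ x with h | h <;> rw [h] <;> linarith [hb ξ]

theorem card_pos_real : (0 : ℝ) < (Fintype.card A : ℝ) := by
  have : 0 < Fintype.card A := Fintype.card_pos_iff.mpr ⟨0⟩
  exact_mod_cast this

/-- convolution with the large part of the spectrum of a sign function is almost an isometry -/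
theorem key_conv (H : Bich χ) {c d : A → ℝ}
    (hg : ∀ x, syn χ (fun ξ => c ξ + d ξ) x ^ 2 = 1) {b : A → ℝ} (hb : ∀ ξ, 0 ≤ b ξ) :
    ∑ ζ, conv b c ζ ^ 2 ≤ 5 / 4 * ∑ ξ, b ξ ^ 2 + 5 * (∑ ξ, b ξ) ^ 2 * ∑ ξ, d ξ ^ 2 := by
  have hQ := card_pos_real (A := A)
  apply le_of_mul_le_mul_left _ hQ
  rw [← parseval_sq H, mul_add]
  have e1 : (Fintype.card A : ℝ) * (5 / 4 * ∑ ξ, b ξ ^ 2) = ∑ x, 5 / 4 * syn χ b x ^ 2 := by
    rw [← Finset.mul_sum, parseval_sq H]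
    ring
  have e2 : (Fintype.card A : ℝ) * (5 * (∑ ξ, b ξ) ^ 2 * ∑ ξ, d ξ ^ 2) =
      ∑ x, 5 * (∑ ξ, b ξ) ^ 2 * syn χ d x ^ 2 := by
    rw [← Finset.mul_sum, parseval_sq H]
    ring
  rw [e1, e2, ← Finset.sum_add_distrib]
  refine Finset.sum_le_sum fun x _ => ?_
  rw [← syn_mul H]
  have h1 := hg x
  rw [syn_add] at h1
  have h2 := syn_sq_le H hb x
  set P := syn χ b x
  set C := syn χ c x
  set D := syn χ d x
  set T := (∑ ξ, b ξ) ^ 2
  have h3 : C ^ 2 ≤ 5 / 4 + 5 * D ^ 2 := by nlinarith [sq_nonneg (C + 5 * D)]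
  have h4 : (P * C) ^ 2 ≤ P ^ 2 * (5 / 4 + 5 * D ^ 2) := by
    rw [mul_pow]
    exact mul_le_mul_of_nonneg_left h3 (sq_nonneg P)
  have h5 : P ^ 2 * D ^ 2 ≤ T * D ^ 2 := mul_le_mul_of_nonneg_right h2 (sq_nonneg D)
  nlinarith

/-- the three pairings -/
theorem pairing (H : Bich χ) {b c : A → ℝ} (hb : ∀ ξ, 0 ≤ b ξ) (hbc : ∀ ξ, b ξ ≤ c ξ) :
    3 * (∑ ξ, b ξ ^ 2) ^ 2 - 2 * ∑ ξ, b ξ ^ 4 ≤ ∑ ζ, conv b c ζ ^ 2 := by
  have h0 : ∀ ζ, 0 ≤ conv b b ζ := fun ζ =>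
    Finset.sum_nonneg fun ξ _ => mul_nonneg (hb _) (hb _)
  have h1 : ∀ ζ, conv b b ζ ≤ conv b c ζ := fun ζ =>
    Finset.sum_le_sum fun ξ _ => mul_le_mul_of_nonneg_left (hbc _) (hb _)
  have h2 : ∀ ζ, 2 * ∑ ξ, b ξ ^ 2 * b (ξ + ζ) ^ 2 +
      (if ζ = 0 then (∑ ξ, b ξ ^ 2) ^ 2 - 2 * ∑ ξ, b ξ ^ 4 else 0) ≤ conv b b ζ ^ 2 := by
    intro ζ
    split_ifs with hζ
    · subst hζ
      simp only [conv, add_zero]
      have e1 : ∑ ξ, b ξ ^ 2 * b ξ ^ 2 = ∑ ξ, b ξ ^ 4 :=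
        Finset.sum_congr rfl fun ξ _ => by ring
      have e2 : ∑ ξ, b ξ * b ξ = ∑ ξ, b ξ ^ 2 := Finset.sum_congr rfl fun ξ _ => by ring
      rw [e1, e2]
      linarith
    · rw [add_zero, pow_two (conv b b ζ)]
      nth_rewrite 1 [conv]
      rw [Finset.sum_mul, Finset.mul_sum]
      refine Finset.sum_le_sum fun ξ _ => ?_
      have hne : ξ ≠ ξ + ζ := by
        intro h
        exact hζ (by simpa using h)
      have h3 : ∑ η ∈ ({ξ, ξ + ζ} : Finset A), b η * b (η + ζ) ≤ conv b b ζ :=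
        Finset.sum_le_sum_of_subset_of_nonneg (Finset.subset_univ _)
          fun η _ _ => mul_nonneg (hb _) (hb _)
      rw [Finset.sum_pair hne, H.canc] at h3
      have h4 : 0 ≤ b ξ * b (ξ + ζ) := mul_nonneg (hb _) (hb _)
      nlinarith [mul_le_mul_of_nonneg_left h3 h4]
  have h3 : ∑ ζ, ∑ ξ, b ξ ^ 2 * b (ξ + ζ) ^ 2 = (∑ ξ, b ξ ^ 2) ^ 2 := by
    rw [Finset.sum_comm, pow_two (∑ ξ, b ξ ^ 2), Finset.sum_mul]
    refine Finset.sum_congr rfl fun ξ _ => ?_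
    rw [← Finset.mul_sum]
    congr 1
    exact Equiv.sum_comp (Equiv.addLeft ξ) (fun η => b η ^ 2)
  have h4 := Finset.sum_le_sum fun ζ (_ : ζ ∈ (univ : Finset A)) => h2 ζ
  rw [Finset.sum_add_distrib, ← Finset.mul_sum, h3, Finset.sum_ite_eq'] at h4
  simp only [Finset.mem_univ, if_true] at h4
  have h5 : ∑ ζ, conv b b ζ ^ 2 ≤ ∑ ζ, conv b c ζ ^ 2 :=
    Finset.sum_le_sum fun ζ _ => pow_le_pow_left₀ (h0 ζ) (h1 ζ) 2
  linarith

/-- fourth moment of a function whose coefficients are of size `c^(3/2)` -/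
theorem fourth_le (H : Bich χ) {w c c' : A → ℝ} (h0 : ∀ ξ, 0 ≤ c' ξ) (h1 : ∀ ξ, c' ξ ≤ c ξ)
    (hw : ∀ ξ, c' ξ ≠ 0 → w ξ ^ 2 ≤ 4 / 3 * c' ξ) :
    ∑ x, syn χ (fun ξ => w ξ * c' ξ) x ^ 4 ≤
      (Fintype.card A : ℝ) * (16 / 9 * ∑ ζ, conv (fun ξ => c' ξ ^ 2) c ζ ^ 2) := by
  have e1 : ∀ x, syn χ (fun ξ => w ξ * c' ξ) x ^ 4 =
      syn χ (conv (fun ξ => w ξ * c' ξ) (fun ξ => w ξ * c' ξ)) x ^ 2 := by
    intro x
    rw [← syn_mul H]
    ring
  simp only [e1]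
  rw [parseval_sq H]
  refine mul_le_mul_of_nonneg_left ?_ card_pos_real.le
  rw [Finset.mul_sum]
  refine Finset.sum_le_sum fun ζ _ => ?_
  have hpt : ∀ ξ η, |w ξ * c' ξ * (w η * c' η)| ≤
      2 / 3 * (c' ξ ^ 2 * c η + c' η ^ 2 * c ξ) := by
    intro ξ η
    have a1 := h0 ξ
    have a2 := h0 η
    have b1 : c' ξ ^ 2 * c' η ≤ c' ξ ^ 2 * c η := mul_le_mul_of_nonneg_left (h1 _) (sq_nonneg _)
    have b2 : c' η ^ 2 * c' ξ ≤ c' η ^ 2 * c ξ := mul_le_mul_of_nonneg_left (h1 _) (sq_nonneg _)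
    have b3 : 0 ≤ c' ξ ^ 2 * c' η := mul_nonneg (sq_nonneg _) a2
    have b4 : 0 ≤ c' η ^ 2 * c' ξ := mul_nonneg (sq_nonneg _) a1
    by_cases z1 : c' ξ = 0
    · rw [z1] at b2 ⊢
      simp only [mul_zero, zero_mul, abs_zero] at b2 ⊢
      nlinarith
    by_cases z2 : c' η = 0
    · rw [z2] at b1 ⊢
      simp only [mul_zero, abs_zero] at b1 ⊢
      nlinarith
    have w1 := hw ξ z1
    have w2 := hw η z2
    have p0 : 0 ≤ c' ξ * c' η := mul_nonneg a1 a2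
    have q1 : |w ξ * w η| ≤ 2 / 3 * (c' ξ + c' η) := by
      rw [abs_le]
      constructor <;> nlinarith [sq_nonneg (w ξ + w η), sq_nonneg (w ξ - w η)]
    have e : w ξ * c' ξ * (w η * c' η) = w ξ * w η * (c' ξ * c' η) := by ring
    rw [e, abs_mul, abs_of_nonneg p0]
    have q2 := mul_le_mul_of_nonneg_right q1 p0
    nlinarith
  have hs : ∑ ξ, c' (ξ + ζ) ^ 2 * c ξ = conv (fun ξ => c' ξ ^ 2) c ζ := by
    rw [conv, ← Equiv.sum_comp (Equiv.addRight ζ)]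
    refine Finset.sum_congr rfl fun ξ _ => ?_
    simp only [Equiv.coe_addRight]
    rw [H.canc]
  have hab : |conv (fun ξ => w ξ * c' ξ) (fun ξ => w ξ * c' ξ) ζ| ≤
      4 / 3 * conv (fun ξ => c' ξ ^ 2) c ζ := by
    refine (Finset.abs_sum_le_sum_abs _ _).trans ?_
    refine (Finset.sum_le_sum fun ξ _ => hpt ξ (ξ + ζ)).trans ?_
    rw [← Finset.mul_sum, Finset.sum_add_distrib, hs]
    simp only [conv]
    linarith
  have := pow_le_pow_left₀ (abs_nonneg _) hab 2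
  rw [sq_abs] at this
  nlinarith

/-- power mean inequality -/
theorem avg_four {s : Finset A} (f : A → ℝ) :
    (∑ z ∈ s, f z) ^ 4 ≤ (s.card : ℝ) ^ 3 * ∑ x, f x ^ 4 := by
  have h1 : (∑ z ∈ s, f z) ^ 2 ≤ s.card * ∑ z ∈ s, f z ^ 2 := sq_sum_le_card_mul_sum_sq
  have h2 : (∑ z ∈ s, f z ^ 2) ^ 2 ≤ s.card * ∑ z ∈ s, (f z ^ 2) ^ 2 := sq_sum_le_card_mul_sum_sq
  have h3 : ∑ z ∈ s, (f z ^ 2) ^ 2 ≤ ∑ x, f x ^ 4 := by
    have : ∀ z, (f z ^ 2) ^ 2 = f z ^ 4 := fun z => by ring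
    simp only [this]
    exact Finset.sum_le_sum_of_subset_of_nonneg (Finset.subset_univ _) fun x _ _ => by positivity
  have hk : (0 : ℝ) ≤ s.card := Nat.cast_nonneg _
  calc (∑ z ∈ s, f z) ^ 4 = ((∑ z ∈ s, f z) ^ 2) ^ 2 := by ring
    _ ≤ (s.card * ∑ z ∈ s, f z ^ 2) ^ 2 := pow_le_pow_left₀ (sq_nonneg _) h1 2
    _ = (s.card : ℝ) ^ 2 * (∑ z ∈ s, f z ^ 2) ^ 2 := by ring
    _ ≤ (s.card : ℝ) ^ 2 * (s.card * ∑ x, f x ^ 4) :=
        mul_le_mul_of_nonneg_left (h2.trans (mul_le_mul_of_nonneg_left h3 hk)) (sq_nonneg _)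
    _ = _ := by ring

end Pool.Agent.MP_942673_co.Nb
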