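import Pool.Agent.MP_942673_co.Nb.Sidon

/-! The case of a Sidon set close to a hyperplane, and the bound for Sidon sets. -/

set_option linter.unusedSectionVars false

open Finset

namespace Pool.Agent.MP_942673_co.Nb

variable {A : Type} [AddCommGroup A] [Fintype A] [DecidableEq A] {χ : A → A → ℝ}

theorem near_hyp (H : Bich χ) {S E : Finset A} (hS : Sid S) (hN : (0 : ℝ) < S.card)
    (hQ : (Fintype.card A : ℝ) = (S.card : ℝ) ^ 2)
    (hE : ∀ z ∈ E, ∀ p ∈ S, ¬ Gam S (z + p))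
    (hk : 10 ^ 6 * (S.card : ℝ) ^ 3 < (E.card : ℝ) ^ 2) {ξ : A} (hξ : ξ ≠ 0) {σ : ℝ}
    (hσ : σ = 1 ∨ σ = -1) (hbig : 8 / 10 * (S.card : ℝ) ≤ σ * ∑ p ∈ S, χ ξ p)
    (hout : ∃ p ∈ S, χ ξ p ≠ σ) : False := by
  have hσ2 : σ * σ = 1 := by rcases hσ with h | h <;> simp [h]
  have hneg : ∀ x, χ ξ x ≠ σ → χ ξ x = -σ := by
    intro x hx
    rcases hσ with h | h <;> rcases H.sgn ξ x with h' | h' <;> simp_all
  set S0 := S.filter fun p => χ ξ p = σ with hS0
  set S1 := S.filter fun p => ¬ χ ξ p = σ with hS1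
  set E0 := E.filter fun p => χ ξ p = σ with hE0
  set E1 := E.filter fun p => ¬ χ ξ p = σ with hE1
  set B := univ.filter fun x => χ ξ x = 1 ∧ ¬ Gam S x with hB
  have cS : (S0.card : ℝ) + S1.card = S.card := by
    exact_mod_cast Finset.card_filter_add_card_filter_not (s := S) fun p => χ ξ p = σ
  have cE : (E0.card : ℝ) + E1.card = E.card := by
    exact_mod_cast Finset.card_filter_add_card_filter_not (s := E) fun p => χ ξ p = σ
  have hW : ∑ p ∈ S, χ ξ p = σ * ((S0.card : ℝ) - S1.card) := by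
    rw [← Finset.sum_filter_add_sum_filter_not S fun p => χ ξ p = σ]
    have e0 : ∑ p ∈ S0, χ ξ p = ∑ _p ∈ S0, σ :=
      Finset.sum_congr rfl fun p hp => (Finset.mem_filter.mp hp).2
    have e1 : ∑ p ∈ S1, χ ξ p = ∑ _p ∈ S1, -σ :=
      Finset.sum_congr rfl fun p hp => hneg p (Finset.mem_filter.mp hp).2
    rw [e0, e1]
    simp only [Finset.sum_const, nsmul_eq_mul]
    ring
  have hj1 : (1 : ℝ) ≤ S1.card := by
    obtain ⟨p, hp, h⟩ := hout
    have : 0 < S1.card := Finset.card_pos.mpr ⟨p, Finset.mem_filter.mpr ⟨hp, h⟩⟩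
    exact_mod_cast this
  have hj : (S1.card : ℝ) ≤ S.card / 10 := by
    rw [hW, ← mul_assoc, hσ2] at hbig
    linarith
  have hβ : (B.card : ℝ) = S1.card * (S.card - S1.card) + S.card / 2 := by
    have e1 : (B.card : ℝ) = ∑ x, (1 + χ x ξ - gf S x - gf S x * χ x ξ) / 4 := by
      rw [hB, Finset.card_filter]
      push_cast
      refine Finset.sum_congr rfl fun x _ => ?_
      rw [H.symm x ξ, gf]
      by_cases h1 : Gam S x <;> rcases H.sgn ξ x with h2 | h2 <;> simp [h1, h2] <;> norm_num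
    have e2 := syn_gf H hS ξ
    rw [if_neg hξ, syn, hW, mul_pow, pow_two σ, hσ2] at e2
    rw [e1, ← Finset.sum_div, Finset.sum_sub_distrib, Finset.sum_sub_distrib,
      Finset.sum_add_distrib, H.orth, if_neg hξ, sum_gf H hS hQ, e2]
    simp only [Finset.sum_const, Finset.card_univ, nsmul_eq_mul]
    rw [hQ, ← cS]
    ring
  have h1 : (E1.card : ℝ) ≤ B.card := by
    obtain ⟨p, hp, h⟩ := hout
    have : E1.card ≤ B.card := by
      refine Finset.card_le_card_of_injOn (fun z => z + p) ?_ ?_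
      · intro z hz
        have hz' := Finset.mem_filter.mp hz
        refine Finset.mem_filter.mpr ⟨Finset.mem_univ _, ?_, hE z hz'.1 p hp⟩
        rw [H.add, hneg z hz'.2, hneg p h]
        linarith
      · intro z _ z' _ h
        exact add_right_cancel h
    exact_mod_cast this
  have hsupp : ∀ x, x ∉ B → rr E0 S0 x = 0 := by
    intro x hx
    refine Finset.sum_eq_zero fun z hz => if_neg fun h => hx ?_
    have hz' := Finset.mem_filter.mp hz
    have h' := Finset.mem_filter.mp h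
    have e : z + (z + x) = x := H.canc' z x
    refine Finset.mem_filter.mpr ⟨Finset.mem_univ _, ?_, ?_⟩
    · rw [← e, H.add, hz'.2, h'.2, hσ2]
    · have := hE z hz'.1 (z + x) h'.1
      rwa [e] at this
  have h2 : ((E0.card : ℝ) * (S.card - S1.card)) ^ 2 ≤
      B.card * (E0.card * (S.card - S1.card) + 2 * (E0.card : ℝ) ^ 2) := by
    have e0 : (S.card : ℝ) - S1.card = S0.card := by linarith
    rw [e0]
    have e1 : ∑ x ∈ B, rr E0 S0 x = (E0.card : ℝ) * S0.card := by
      rw [← sum_rr H]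
      exact Finset.sum_subset (Finset.subset_univ _) fun x _ hx => hsupp x hx
    have e2 : (∑ x ∈ B, rr E0 S0 x) ^ 2 ≤ B.card * ∑ x ∈ B, rr E0 S0 x ^ 2 :=
      sq_sum_le_card_mul_sum_sq
    have e3 : ∑ x ∈ B, rr E0 S0 x ^ 2 ≤ ∑ x, rr E0 S0 x ^ 2 :=
      Finset.sum_le_sum_of_subset_of_nonneg (Finset.subset_univ _) fun x _ _ => sq_nonneg _
    have e4 := sum_rr_sq H hS (Finset.filter_subset (fun p => χ ξ p = σ) S) E0
    rw [e1] at e2
    exact e2.trans (mul_le_mul_of_nonneg_left (e3.trans e4) (Nat.cast_nonneg _))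
  have hT : ∑ x ∈ B, rr E S x ≤ (E0.card : ℝ) * S.card + E.card * S1.card := by
    have e1 : ∀ x ∈ B, rr E S x ≤ rr E0 S x + rr E S1 x := by
      intro x hx
      have hx1 := (Finset.mem_filter.mp hx).2.1
      have e2 : rr E0 S x = ∑ z ∈ E, if χ ξ z = σ then (if z + x ∈ S then 1 else 0) else 0 := by
        rw [rr, hE0, Finset.sum_filter]
      rw [e2, rr, rr, ← Finset.sum_add_distrib]
      refine Finset.sum_le_sum fun z _ => ?_
      by_cases hz : χ ξ z = σ
      · rw [if_pos hz]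
        split_ifs <;> norm_num
      · rw [if_neg hz]
        by_cases h3 : z + x ∈ S
        · have : z + x ∈ S1 := Finset.mem_filter.mpr ⟨h3, by rwa [H.add, hx1, mul_one]⟩
          rw [if_pos h3, if_pos this]
          norm_num
        · rw [if_neg h3]
          split_ifs <;> norm_num
    refine (Finset.sum_le_sum e1).trans ?_
    rw [← sum_rr H, ← sum_rr H, ← Finset.sum_add_distrib]
    exact Finset.sum_le_sum_of_subset_of_nonneg (Finset.subset_univ _)
      fun x _ _ => add_nonneg (rr_nonneg _ _ _) (rr_nonneg _ _ _)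
  have h3 : (∑ x ∈ B, rr E S x - 2 * ((E.card : ℝ) / S.card) * B.card) ^ 2 ≤
      B.card * (3 * (E.card : ℝ) * S.card) := by
    have e1 : ∑ x ∈ B, rr E S x - 2 * ((E.card : ℝ) / S.card) * B.card =
        ∑ x ∈ B, (rr E S x - (E.card : ℝ) / S.card * (1 - gf S x)) := by
      rw [Finset.sum_sub_distrib]
      congr 1
      have : ∀ x ∈ B, (E.card : ℝ) / S.card * (1 - gf S x) = 2 * ((E.card : ℝ) / S.card) := by
        intro x hx
        rw [gf, if_neg (Finset.mem_filter.mp hx).2.2]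
        ring
      rw [Finset.sum_congr rfl this]
      simp only [Finset.sum_const, nsmul_eq_mul]
      ring
    have e2 : (∑ x ∈ B, (rr E S x - (E.card : ℝ) / S.card * (1 - gf S x))) ^ 2 ≤
        B.card * ∑ x ∈ B, (rr E S x - (E.card : ℝ) / S.card * (1 - gf S x)) ^ 2 :=
      sq_sum_le_card_mul_sum_sq
    have e3 : ∑ x ∈ B, (rr E S x - (E.card : ℝ) / S.card * (1 - gf S x)) ^ 2 ≤
        ∑ x, (rr E S x - (E.card : ℝ) / S.card * (1 - gf S x)) ^ 2 :=
      Finset.sum_le_sum_of_subset_of_nonneg (Finset.subset_univ _) fun x _ _ => sq_nonneg _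
    rw [e1]
    exact e2.trans (mul_le_mul_of_nonneg_left (e3.trans (rigid H hS hN hQ hE)) (Nat.cast_nonneg _))
  have hkN : (E.card : ℝ) ≤ (S.card : ℝ) ^ 2 := by
    rw [← hQ]
    exact_mod_cast Finset.card_le_univ E
  exact near_num hN hj1 hj hβ cE.symm (Nat.cast_nonneg _) h1 h2 hT h3 (Nat.cast_nonneg _) hk hkN

/-- a Sidon set of size `N` in a group of order `N²`, not contained in a hyperplane, can be
extended by at most `1000 N^(3/2)` points -/
theorem sidon_bound (H : Bich χ) {S E : Finset A} (hS : Sid S) (hN : (0 : ℝ) < S.card)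
    (hQ : (Fintype.card A : ℝ) = (S.card : ℝ) ^ 2)
    (hE : ∀ z ∈ E, ∀ p ∈ S, ¬ Gam S (z + p))
    (hyp : ∀ ξ, ξ ≠ 0 → ∀ σ : ℝ, ∃ p ∈ S, χ ξ p ≠ σ) :
    (E.card : ℝ) ^ 2 ≤ 10 ^ 6 * (S.card : ℝ) ^ 3 := by
  by_contra hk
  push Not at hk
  obtain ⟨ξ, hξ, h⟩ := large_coeff H hS hN hQ hE hk
  rw [div_pow, le_div_iff₀ (by positivity)] at h
  rcases le_total 0 (∑ p ∈ S, χ ξ p) with h0 | h0
  · refine near_hyp H hS hN hQ hE hk hξ (Or.inl rfl) ?_ (hyp ξ hξ 1)
    rw [one_mul]
    exact le_of_sq_le_sq (by linarith) h0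
  · refine near_hyp H hS hN hQ hE hk hξ (Or.inr rfl) ?_ (hyp ξ hξ (-1))
    exact le_of_sq_le_sq (by linarith) (by linarith)

end Pool.Agent.MP_942673_co.Nb
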