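import Pool.Agent.MP_942673_co.Nb.Spec

/-! Sidon sets of critical size: few points can be added. -/

set_option linter.unusedSectionVars false

open Finset

namespace Pool.Agent.MP_942673_co.Nb

variable {A : Type} [AddCommGroup A] [Fintype A] [DecidableEq A] {χ : A → A → ℝ}

/-- `x` is a sum of two distinct points of `S` -/
def Gam (S : Finset A) (x : A) : Prop := ∃ p ∈ S, ∃ q ∈ S, p ≠ q ∧ p + q = x

instance (S : Finset A) (x : A) : Decidable (Gam S x) := by
  unfold Gam
  infer_instance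

/-- sums of two distinct points determine the two points -/
def Sid (S : Finset A) : Prop :=
  ∀ p ∈ S, ∀ q ∈ S, ∀ p' ∈ S, ∀ q' ∈ S, p ≠ q → p + q = p' + q' → p' = p ∨ p' = q

/-- sign function of the set of pair sums -/
noncomputable def gf (S : Finset A) (x : A) : ℝ := if Gam S x then 1 else -1

/-- number of representations `x = z + p` -/
noncomputable def rr (E S : Finset A) (x : A) : ℝ := ∑ z ∈ E, if z + x ∈ S then 1 else 0

theorem rr_nonneg (E S : Finset A) (x : A) : 0 ≤ rr E S x :=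
  Finset.sum_nonneg fun z _ => by split_ifs <;> norm_num

theorem rr_eq_card (E S : Finset A) (x : A) :
    rr E S x = ((E.filter fun z => z + x ∈ S).card : ℝ) := by
  rw [rr, Finset.card_filter]
  push_cast
  rfl

theorem syn_rr (H : Bich χ) (E S : Finset A) (ξ : A) :
    syn χ (rr E S) ξ = (∑ z ∈ E, χ ξ z) * ∑ p ∈ S, χ ξ p := by
  simp only [syn, rr, Finset.sum_mul]
  rw [Finset.sum_comm]
  refine Finset.sum_congr rfl fun z _ => ?_
  rw [← Equiv.sum_comp (Equiv.addLeft z)]
  simp only [Equiv.coe_addLeft, H.canc', ite_mul, one_mul, zero_mul]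
  rw [← Finset.sum_filter, Finset.mul_sum]
  simp only [Finset.filter_mem_eq_inter, Finset.univ_inter]
  exact Finset.sum_congr rfl fun p _ => by rw [H.symm, H.add]

theorem sum_rr (H : Bich χ) (E S : Finset A) : ∑ x, rr E S x = (E.card : ℝ) * S.card := by
  have h := syn_rr H E S 0
  simpa [syn, H.zero_right, H.zero_left] using h

theorem rr_zero (S : Finset A) : rr S S 0 = S.card := by
  rw [rr_eq_card]
  congr 2
  ext z
  simp

theorem rr_le_two (H : Bich χ) {S S' : Finset A} (hS : Sid S) (h' : S' ⊆ S) {x : A} (hx : x ≠ 0) :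
    rr S' S' x ≤ 2 := by
  rw [rr_eq_card]
  rcases (S'.filter fun z => z + x ∈ S').eq_empty_or_nonempty with h | ⟨p, hp⟩
  · rw [h]
    simp
  · rw [Finset.mem_filter] at hp
    have hsub : (S'.filter fun z => z + x ∈ S') ⊆ {p, p + x} := by
      intro z hz
      rw [Finset.mem_filter] at hz
      have hne : p ≠ p + x := fun h => hx (by simpa using h)
      have := hS p (h' hp.1) (p + x) (h' hp.2) z (h' hz.1) (z + x) (h' hz.2) hne
        (by rw [H.canc', H.canc'])
      simpa using this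
    have := (Finset.card_le_card hsub).trans Finset.card_le_two
    exact_mod_cast this

theorem rr_self (H : Bich χ) {S : Finset A} (hS : Sid S) (x : A) :
    rr S S x = 1 + gf S x + if x = 0 then (S.card : ℝ) else 0 := by
  by_cases hx : x = 0
  · subst hx
    have : ¬ Gam S 0 := by
      rintro ⟨p, _, q, _, hne, h⟩
      exact hne (H.eq_of_add.mp h)
    rw [rr_zero, gf, if_neg this, if_pos rfl]
    ring
  · rw [if_neg hx, gf]
    split_ifs with hg
    · obtain ⟨p, hp, q, hq, hne, h⟩ := hg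
      have h1 := rr_le_two H hS (Finset.Subset.refl S) hx
      have hsub : ({p, q} : Finset A) ⊆ S.filter fun z => z + x ∈ S := by
        intro z hz
        rw [Finset.mem_insert, Finset.mem_singleton] at hz
        rw [Finset.mem_filter]
        rcases hz with rfl | rfl
        · exact ⟨hp, by rw [← h, H.canc']; exact hq⟩
        · exact ⟨hq, by rw [← h, add_comm p, H.canc']; exact hp⟩
      have h2 := Finset.card_le_card hsub
      rw [Finset.card_pair hne] at h2
      have h3 : (2 : ℝ) ≤ rr S S x := by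
        rw [rr_eq_card]
        exact_mod_cast h2
      linarith
    · have : (S.filter fun z => z + x ∈ S) = ∅ := by
        rw [Finset.filter_eq_empty_iff]
        intro z hz h
        exact hg ⟨z, hz, z + x, h, fun h => hx (by simpa using h), H.canc' z x⟩
      rw [rr_eq_card, this]
      simp

theorem sum_rr_sq (H : Bich χ) {S S' : Finset A} (hS : Sid S) (h' : S' ⊆ S) (E : Finset A) :
    ∑ x, rr E S' x ^ 2 ≤ (E.card : ℝ) * S'.card + 2 * (E.card : ℝ) ^ 2 := by
  have h1 : ∑ x, rr E S' x ^ 2 = ∑ x, rr E E x * rr S' S' x := by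
    apply mul_left_cancel₀ (card_pos_real (A := A)).ne'
    rw [← parseval_sq H, ← parseval H]
    refine Finset.sum_congr rfl fun ξ _ => ?_
    simp only [syn_rr H]
    ring
  have h2 : ∀ x, rr E E x * rr S' S' x ≤
      (if x = 0 then (E.card : ℝ) * S'.card else 0) + 2 * rr E E x := by
    intro x
    split_ifs with hx
    · subst hx
      rw [rr_zero, rr_zero]
      have : (0 : ℝ) ≤ E.card := Nat.cast_nonneg _
      linarith
    · nlinarith [rr_le_two H hS h' hx, rr_nonneg E E x]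
  rw [h1]
  refine (Finset.sum_le_sum fun x _ => h2 x).trans ?_
  rw [Finset.sum_add_distrib, Finset.sum_ite_eq', ← Finset.mul_sum, sum_rr H]
  simp only [Finset.mem_univ, if_true]
  linarith

theorem syn_gf (H : Bich χ) {S : Finset A} (hS : Sid S) (ξ : A) :
    syn χ (gf S) ξ = (∑ p ∈ S, χ ξ p) ^ 2 - S.card -
      if ξ = 0 then (Fintype.card A : ℝ) else 0 := by
  have h1 := syn_rr H S S ξ
  simp only [syn, rr_self H hS, add_mul, Finset.sum_add_distrib, one_mul, ite_mul, zero_mul] at h1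
  rw [Finset.sum_ite_eq', H.orth] at h1
  simp only [Finset.mem_univ, if_true, H.zero_left] at h1
  rw [syn]
  linarith

theorem gf_sq (S : Finset A) (x : A) : gf S x ^ 2 = 1 := by
  rw [gf]
  split_ifs <;> norm_num

theorem rr_eq_zero (H : Bich χ) {S S' E : Finset A} (h' : S' ⊆ S)
    (hE : ∀ z ∈ E, ∀ p ∈ S, ¬ Gam S (z + p)) {x : A} (hx : Gam S x) : rr E S' x = 0 := by
  refine Finset.sum_eq_zero fun z hz => if_neg fun h => ?_
  have := hE z hz (z + x) (h' h)
  rw [H.canc'] at this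
  exact this hx

theorem sum_gf (H : Bich χ) {S : Finset A} (hS : Sid S)
    (hQ : (Fintype.card A : ℝ) = (S.card : ℝ) ^ 2) : ∑ x, gf S x = -(S.card : ℝ) := by
  have h := syn_gf H hS 0
  simp only [syn, H.zero_right, H.zero_left, mul_one, if_true, Finset.sum_const, nsmul_eq_mul] at h
  rw [h, hQ]
  ring

/-- rigidity -/
theorem rigid (H : Bich χ) {S E : Finset A} (hS : Sid S) (hN : (0 : ℝ) < S.card)
    (hQ : (Fintype.card A : ℝ) = (S.card : ℝ) ^ 2)
    (hE : ∀ z ∈ E, ∀ p ∈ S, ¬ Gam S (z + p)) :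
    ∑ x, (rr E S x - (E.card : ℝ) / S.card * (1 - gf S x)) ^ 2 ≤ 3 * (E.card : ℝ) * S.card := by
  set N : ℝ := (S.card : ℝ) with hNd
  set k : ℝ := (E.card : ℝ) with hkd
  have hk0 : 0 ≤ k := Nat.cast_nonneg _
  have hkN : k ≤ N ^ 2 := by
    rw [← hQ, hkd]
    exact_mod_cast Finset.card_le_univ E
  have h1 : ∀ x, (rr E S x - k / N * (1 - gf S x)) ^ 2 =
      rr E S x ^ 2 - 4 * (k / N) * rr E S x + 2 * (k / N) ^ 2 * (1 - gf S x) := by
    intro x
    by_cases hx : Gam S x
    · rw [rr_eq_zero H (Finset.Subset.refl S) hE hx, gf, if_pos hx]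
      ring
    · rw [gf, if_neg hx]
      ring
  simp only [h1]
  rw [Finset.sum_add_distrib, Finset.sum_sub_distrib, ← Finset.mul_sum, ← Finset.mul_sum,
    Finset.sum_sub_distrib, sum_rr H, sum_gf H hS hQ]
  simp only [Finset.sum_const, Finset.card_univ, nsmul_eq_mul, mul_one]
  rw [hQ]
  have h2 := sum_rr_sq H hS (Finset.Subset.refl S) E
  rw [← hNd, ← hkd] at h2 ⊢
  have h3 : 4 * (k / N) * (k * N) = 4 * k ^ 2 := by field_simp
  have h4 : 2 * (k / N) ^ 2 * (N ^ 2 - -N) = 2 * k ^ 2 + 2 * (k * (k / N)) := by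
    field_simp
    ring
  have h5 : k / N ≤ N := by
    rw [div_le_iff₀ hN]
    nlinarith
  have h6 : k * (k / N) ≤ k * N := mul_le_mul_of_nonneg_left h5 hk0
  rw [h3, h4]
  linarith

theorem large_coeff (H : Bich χ) {S E : Finset A} (hS : Sid S) (hN : (0 : ℝ) < S.card)
    (hQ : (Fintype.card A : ℝ) = (S.card : ℝ) ^ 2)
    (hE : ∀ z ∈ E, ∀ p ∈ S, ¬ Gam S (z + p))
    (hk : 10 ^ 6 * (S.card : ℝ) ^ 3 < (E.card : ℝ) ^ 2) :
    ∃ ξ, ξ ≠ 0 ∧ 64 / 100 ≤ ((∑ p ∈ S, χ ξ p) / S.card) ^ 2 := by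
  have hr := rigid H hS hN hQ hE
  set N : ℝ := (S.card : ℝ) with hNd
  set k : ℝ := (E.card : ℝ) with hkd
  have hk0 : 0 < k := by
    have h1 : 0 ≤ k := Nat.cast_nonneg _
    rcases h1.lt_or_eq with h | h
    · exact h
    · rw [← h] at hk
      have : 0 < N ^ 3 := by positivity
      nlinarith
  have hs0 : ∑ p ∈ S, χ 0 p = N := by simp [H.zero_left, hNd]
  refine spectral H hN hQ (E := E) (w := fun ξ => (∑ p ∈ S, χ ξ p) / N)
    (a := fun ξ => syn χ (gf S) ξ / N ^ 2) ?_ ?_ ?_ ?_ hk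
  · intro ξ hξ
    simp only [syn_gf H hS, if_neg hξ, ← hNd]
    field_simp
    ring
  · simp only [syn_gf H hS, if_true, ← hNd, hs0, hQ]
    field_simp
    ring
  · intro x
    have h1 : syn χ (fun ξ => syn χ (gf S) ξ / N ^ 2) x = syn χ (syn χ (gf S)) x / N ^ 2 := by
      rw [syn, syn, Finset.sum_div]
      exact Finset.sum_congr rfl fun ξ _ => by ring
    rw [h1, syn_syn H, hQ, mul_div_cancel_left₀ _ (by positivity), gf_sq]
  · rw [← hkd]
    have h1 := parseval_sq H (fun x => rr E S x - k / N * (1 - gf S x))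
    have h2 : ∀ ξ, (k * N) ^ 2 * (if ξ = 0 then 0 else
        (∑ z ∈ E, χ ξ z) / k * ((∑ p ∈ S, χ ξ p) / N) + syn χ (gf S) ξ / N ^ 2) ^ 2 ≤
        syn χ (fun x => rr E S x - k / N * (1 - gf S x)) ξ ^ 2 := by
      intro ξ
      split_ifs with hξ
      · simp only [ne_eq, OfNat.ofNat_ne_zero, not_false_eq_true, zero_pow, mul_zero]
        exact sq_nonneg _
      · have h3 : syn χ (fun x => rr E S x - k / N * (1 - gf S x)) ξ =
            syn χ (rr E S) ξ - k / N * (∑ x, χ x ξ - syn χ (gf S) ξ) := by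
          simp only [syn]
          rw [← Finset.sum_sub_distrib, Finset.mul_sum, ← Finset.sum_sub_distrib]
          exact Finset.sum_congr rfl fun x _ => by ring
        rw [h3, H.orth, if_neg hξ, syn_rr H, ← mul_pow]
        apply le_of_eq
        congr 1
        field_simp
        ring
    have h3 := Finset.sum_le_sum fun ξ (_ : ξ ∈ (univ : Finset A)) => h2 ξ
    rw [← Finset.mul_sum, h1, hQ] at h3
    have h4 : N ^ 2 * ∑ x, (rr E S x - k / N * (1 - gf S x)) ^ 2 ≤ N ^ 2 * (3 * k * N) :=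
      mul_le_mul_of_nonneg_left hr (by positivity)
    have h5 : N ^ 2 * (3 * k * N) = (k * N) ^ 2 * (3 * (N / k)) := by field_simp
    exact le_of_mul_le_mul_left (h3.trans (h4.trans h5.le)) (by positivity)

theorem near_num {N j k k0 k1 β T : ℝ} (hN : 0 < N) (hj1 : 1 ≤ j) (hj : j ≤ N / 10)
    (hβ : β = j * (N - j) + N / 2) (hkk : k = k0 + k1) (h0 : 0 ≤ k0) (h1 : k1 ≤ β)
    (h2 : (k0 * (N - j)) ^ 2 ≤ β * (k0 * (N - j) + 2 * k0 ^ 2)) (hT : T ≤ k0 * N + k * j)
    (h3 : (T - 2 * (k / N) * β) ^ 2 ≤ β * (3 * k * N)) (hk0 : 0 ≤ k)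
    (hk : 10 ^ 6 * N ^ 3 < k ^ 2) (hkN : k ≤ N ^ 2) : False := by
  have hN3 : 0 < N ^ 3 := by positivity
  have hbig : 10 ^ 6 < N := by
    have t1 : k ^ 2 ≤ (N ^ 2) ^ 2 := pow_le_pow_left₀ hk0 hkN 2
    by_contra h
    push Not at h
    nlinarith
  have hjN : 0 < j * N := by positivity
  have b1 : β ≤ 3 / 2 * (j * N) := by nlinarith
  have b2 : 9 / 10 * (j * N) ≤ β := by nlinarith
  have b3 : β ≤ 15 / 100 * N ^ 2 := by nlinarith
  have b4 : k0 ≤ 3 * j := by
    by_contra h
    push Not at h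
    have p0 : 0 < k0 := by linarith
    have p1 : k0 * (N - j) ^ 2 ≤ β * ((N - j) + 2 * k0) := by
      apply le_of_mul_le_mul_left _ p0
      nlinarith
    have p2 : (9 / 10 * N) ^ 2 ≤ (N - j) ^ 2 := pow_le_pow_left₀ (by positivity) (by linarith) 2
    have p3 : k0 * (9 / 10 * N) ^ 2 ≤ k0 * (N - j) ^ 2 := mul_le_mul_of_nonneg_left p2 h0
    have p4 : β * k0 ≤ 15 / 100 * N ^ 2 * k0 := mul_le_mul_of_nonneg_right b3 h0
    have p5 : β * (N - j) ≤ 3 / 2 * (j * N) * N :=
      mul_le_mul b1 (by linarith) (by linarith) (by positivity)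
    have p6 : 3 * j * N ^ 2 ≤ k0 * N ^ 2 := mul_le_mul_of_nonneg_right h.le (by positivity)
    have p7 : 0 < j * N ^ 2 := by positivity
    nlinarith
  have b5 : k ≤ 2 * (j * N) := by nlinarith
  have b6 : 30 * N ≤ k := by
    by_contra h
    push Not at h
    have t1 : k ^ 2 ≤ (30 * N) ^ 2 := pow_le_pow_left₀ hk0 h.le 2
    have t2 : 0 < N ^ 2 := by positivity
    nlinarith
  have hkp : 0 < k := by linarith
  have hkj : 0 < k * j := by positivity
  have b7 : 18 / 10 * (k * j) ≤ 2 * (k / N) * β := by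
    have t1 : 2 * (k / N) * (9 / 10 * (j * N)) ≤ 2 * (k / N) * β :=
      mul_le_mul_of_nonneg_left b2 (by positivity)
    have t2 : 2 * (k / N) * (9 / 10 * (j * N)) = 18 / 10 * (k * j) := by
      field_simp
      ring
    linarith
  have b8 : k0 * N ≤ 1 / 10 * (k * j) := by
    have t1 : k0 * N ≤ 3 * j * N := mul_le_mul_of_nonneg_right b4 hN.le
    have t2 : 30 * N * j ≤ k * j := mul_le_mul_of_nonneg_right b6 (by linarith)
    linarith
  have b9 : (7 / 10 * (k * j)) ^ 2 ≤ (2 * (k / N) * β - T) ^ 2 :=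
    pow_le_pow_left₀ (by positivity) (by linarith) 2
  have c1 : β * (3 * k * N) ≤ 3 / 2 * (j * N) * (3 * k * N) :=
    mul_le_mul_of_nonneg_right b1 (by positivity)
  have c2 : k * j ≤ 10 * N ^ 2 := by
    apply le_of_mul_le_mul_left _ hkj
    have t2 : 0 < k * j * N ^ 2 := by positivity
    nlinarith
  have c3 : k * k ≤ k * (2 * (j * N)) := mul_le_mul_of_nonneg_left b5 hk0
  have c4 : k * j * N ≤ 10 * N ^ 2 * N := mul_le_mul_of_nonneg_right c2 hN.le
  nlinarith

end Pool.Agent.MP_942673_co.Nb
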