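import Pool.Agent.MP_942673_co.Nb.Four

/-! The spectral step: rigidity forces one large Fourier coefficient. -/

set_option linter.unusedSectionVars false

open Finset

namespace Pool.Agent.MP_942673_co.Nb

variable {A : Type} [AddCommGroup A] [Fintype A] [DecidableEq A] {χ : A → A → ℝ}

theorem sum_char_sq (H : Bich χ) (E : Finset A) :
    ∑ ξ, (∑ z ∈ E, χ ξ z) ^ 2 = (Fintype.card A : ℝ) * E.card := by
  have h1 : ∀ ξ, ∑ z ∈ E, χ ξ z = syn χ (fun z => if z ∈ E then 1 else 0) ξ := by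
    intro ξ
    simp only [syn, ite_mul, one_mul, zero_mul]
    rw [← Finset.sum_filter]
    simp only [Finset.filter_mem_eq_inter, Finset.univ_inter]
    exact Finset.sum_congr rfl fun z _ => H.symm _ _
  simp only [h1]
  rw [parseval_sq H]
  congr 1
  simp only [ite_pow, one_pow, ne_eq, OfNat.ofNat_ne_zero, not_false_eq_true, zero_pow]
  rw [← Finset.sum_filter]
  simp

/-- the low part of the truncated spectrum has small mass -/
theorem low_mass (H : Bich χ) {E : Finset A} {w y c d : A → ℝ} {δ h : ℝ}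
    (hk : (0 : ℝ) < E.card) (hδ : 0 < δ) (hQ : (Fintype.card A : ℝ) * δ = E.card)
    (hhδ : h ≤ δ / 10 ^ 6) (hδ1 : δ ≤ 1)
    (hg : ∀ x, syn χ (fun ξ => c ξ + d ξ) x ^ 2 = 1)
    (hc0 : ∀ ξ, 0 ≤ c ξ) (hw : ∀ ξ, c ξ ≠ 0 → w ξ ^ 2 ≤ 4 / 3 * c ξ)
    (hcy : ∀ ξ, c ξ ≠ 0 → c ξ = y ξ - (∑ z ∈ E, χ ξ z) / E.card * w ξ)
    (hy : ∑ ξ, y ξ ^ 2 ≤ 3 * h) (hd : ∑ ξ, d ξ ^ 2 ≤ 15 * h) (hc1 : ∑ ξ, c ξ ^ 2 ≤ 1) :
    ∑ ξ, (if c ξ ^ 2 ≤ δ / 1000 then c ξ else 0) ^ 2 ≤ 1 / 5 := by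
  set c' : A → ℝ := fun ξ => if c ξ ^ 2 ≤ δ / 1000 then c ξ else 0 with hc'
  have a0 : ∀ ξ, 0 ≤ c' ξ := by
    intro ξ
    simp only [hc']
    split_ifs
    · exact hc0 ξ
    · exact le_rfl
  have a1 : ∀ ξ, c' ξ ≤ c ξ := by
    intro ξ
    simp only [hc']
    split_ifs
    · exact le_rfl
    · exact hc0 ξ
  have a2 : ∀ ξ, c' ξ ≠ 0 → c' ξ = c ξ := by
    intro ξ
    simp only [hc']
    split_ifs
    · exact fun _ => rfl
    · exact fun h => absurd rfl h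
  have a3 : ∀ ξ, c' ξ ^ 2 ≤ δ / 1000 := by
    intro ξ
    simp only [hc']
    split_ifs with h1
    · exact h1
    · have : (0 : ℝ) ^ 2 = 0 := by norm_num
      rw [this]
      positivity
  have a4 : ∀ ξ, c' ξ ≠ 0 → w ξ ^ 2 ≤ 4 / 3 * c' ξ := by
    intro ξ h1
    have h2 := a2 ξ h1
    rw [h2] at h1 ⊢
    exact hw ξ h1
  change ∑ ξ, c' ξ ^ 2 ≤ 1 / 5
  set M := ∑ ξ, c' ξ ^ 2 with hM
  have hM0 : 0 ≤ M := Finset.sum_nonneg fun ξ _ => sq_nonneg _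
  have hM1 : M ≤ 1 :=
    (Finset.sum_le_sum fun ξ _ => pow_le_pow_left₀ (a0 ξ) (a1 ξ) 2).trans hc1
  set X := (∑ z ∈ E, syn χ (fun ξ => w ξ * c' ξ) z) / E.card with hX
  have hXe : X = ∑ ξ, (∑ z ∈ E, χ ξ z) / E.card * w ξ * c' ξ := by
    rw [hX]
    simp only [syn]
    rw [Finset.sum_comm, Finset.sum_div]
    refine Finset.sum_congr rfl fun ξ _ => ?_
    rw [← Finset.mul_sum]
    ring
  have b1 : M ≤ M / 200 + 50 * ∑ ξ, y ξ ^ 2 - X := by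
    rw [hXe, hM, Finset.sum_div, Finset.mul_sum, ← Finset.sum_add_distrib,
      ← Finset.sum_sub_distrib]
    refine Finset.sum_le_sum fun ξ _ => ?_
    by_cases h1 : c' ξ = 0
    · rw [h1]
      nlinarith [sq_nonneg (y ξ)]
    · have h2 := a2 ξ h1
      have h3 := hcy ξ (h2 ▸ h1)
      rw [← h2] at h3
      have h4 : (∑ z ∈ E, χ ξ z) / E.card * w ξ = y ξ - c' ξ := by linarith
      rw [h4]
      nlinarith [sq_nonneg (c' ξ - 100 * y ξ)]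
  have b2 := fourth_le H a0 a1 a4
  have b3 := key_conv H hg (b := fun ξ => c' ξ ^ 2) fun ξ => sq_nonneg _
  have b4 : ∑ ξ, (c' ξ ^ 2) ^ 2 ≤ δ / 1000 * M := by
    rw [hM, Finset.mul_sum]
    refine Finset.sum_le_sum fun ξ _ => ?_
    rw [pow_two (c' ξ ^ 2)]
    exact mul_le_mul_of_nonneg_right (a3 ξ) (sq_nonneg _)
  have b5 := avg_four (s := E) (syn χ (fun ξ => w ξ * c' ξ))
  have b6 : ∑ ζ, conv (fun ξ => c' ξ ^ 2) c ζ ^ 2 ≤ δ * (133 / 100000 * M) := by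
    have t1 : M ^ 2 * ∑ ξ, d ξ ^ 2 ≤ M * (15 * (δ / 10 ^ 6)) := by
      have t2 : M ^ 2 ≤ M := by nlinarith
      have t3 : 0 ≤ ∑ ξ, d ξ ^ 2 := Finset.sum_nonneg fun ξ _ => sq_nonneg _
      exact mul_le_mul t2 (by linarith) t3 hM0
    have t4 : 0 ≤ δ * M := mul_nonneg hδ.le hM0
    rw [← hM] at b3
    nlinarith
  have b7 : X ^ 4 ≤ 24 / 10000 * M := by
    rw [hX, div_pow, div_le_iff₀ (by positivity)]
    have t1 : ∑ x, syn χ (fun ξ => w ξ * c' ξ) x ^ 4 ≤ E.card * (24 / 10000 * M) := by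
      refine b2.trans ?_
      rw [← hQ, mul_assoc]
      refine mul_le_mul_of_nonneg_left ?_ card_pos_real.le
      have t4 : 0 ≤ δ * M := mul_nonneg hδ.le hM0
      nlinarith
    calc _ ≤ (E.card : ℝ) ^ 3 * ∑ x, syn χ (fun ξ => w ξ * c' ξ) x ^ 4 := b5
      _ ≤ (E.card : ℝ) ^ 3 * (E.card * (24 / 10000 * M)) :=
          mul_le_mul_of_nonneg_left t1 (by positivity)
      _ = _ := by ring
  by_contra hcon
  push Not at hcon
  have c1 : 99 / 100 * M ≤ -X := by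
    have : h ≤ 1 / 10 ^ 6 := hhδ.trans (by linarith)
    linarith
  have c2 : (99 / 100 * M) ^ 4 ≤ (-X) ^ 4 := pow_le_pow_left₀ (by positivity) c1 4
  have c3 : (-X) ^ 4 = X ^ 4 := by ring
  have c4 : (1 / 5 : ℝ) ^ 3 ≤ M ^ 3 := pow_le_pow_left₀ (by norm_num) hcon.le 3
  have c5 : (1 / 5 : ℝ) ^ 3 * M ≤ M ^ 3 * M := mul_le_mul_of_nonneg_right c4 hM0
  nlinarith

/-- the high part of the truncated spectrum has a large coefficient -/
theorem high_part (H : Bich χ) {c d : A → ℝ} {δ h : ℝ} (hδ : 0 < δ)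
    (hhδ : h ≤ δ / 10 ^ 6)
    (hg : ∀ x, syn χ (fun ξ => c ξ + d ξ) x ^ 2 = 1)
    (hc0 : ∀ ξ, 0 ≤ c ξ) (hd : ∑ ξ, d ξ ^ 2 ≤ 15 * h) (hc : ∀ ξ, c ξ ≤ 64 / 100) :
    ∑ ξ, (if c ξ ^ 2 ≤ δ / 1000 then 0 else c ξ) ^ 2 ≤ 3 / 4 := by
  set b : A → ℝ := fun ξ => if c ξ ^ 2 ≤ δ / 1000 then 0 else c ξ with hb
  have a0 : ∀ ξ, 0 ≤ b ξ := by
    intro ξ
    simp only [hb]
    split_ifs
    · exact le_rfl
    · exact hc0 ξ
  have a1 : ∀ ξ, b ξ ≤ c ξ := by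
    intro ξ
    simp only [hb]
    split_ifs
    · exact hc0 ξ
    · exact le_rfl
  set t := Real.sqrt (δ / 1000) with ht
  have ht0 : 0 ≤ t := Real.sqrt_nonneg _
  have ht2 : t ^ 2 = δ / 1000 := Real.sq_sqrt (by positivity)
  have a2 : ∀ ξ, t * b ξ ≤ b ξ ^ 2 := by
    intro ξ
    simp only [hb]
    split_ifs with h1
    · norm_num
    · push Not at h1
      rw [← ht2] at h1
      have h2 : t ≤ c ξ := (lt_of_pow_lt_pow_left₀ 2 (hc0 ξ) h1).le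
      nlinarith [hc0 ξ]
  change ∑ ξ, b ξ ^ 2 ≤ 3 / 4
  set M := ∑ ξ, b ξ ^ 2 with hM
  have hM0 : 0 ≤ M := Finset.sum_nonneg fun ξ _ => sq_nonneg _
  have b1 : t * ∑ ξ, b ξ ≤ M := by
    rw [Finset.mul_sum]
    exact Finset.sum_le_sum fun ξ _ => a2 ξ
  have b0 : 0 ≤ ∑ ξ, b ξ := Finset.sum_nonneg fun ξ _ => a0 ξ
  have b2 : δ / 1000 * (∑ ξ, b ξ) ^ 2 ≤ M ^ 2 := by
    rw [← ht2, ← mul_pow]
    exact pow_le_pow_left₀ (mul_nonneg ht0 b0) b1 2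
  have b3 : ∑ ξ, b ξ ^ 4 ≤ 41 / 100 * M := by
    rw [hM, Finset.mul_sum]
    refine Finset.sum_le_sum fun ξ _ => ?_
    have h1 : b ξ ^ 2 ≤ (64 / 100) ^ 2 := pow_le_pow_left₀ (a0 ξ) ((a1 ξ).trans (hc ξ)) 2
    have h2 := mul_le_mul_of_nonneg_right h1 (sq_nonneg (b ξ))
    nlinarith [sq_nonneg (b ξ)]
  have b4 := key_conv H hg a0
  have b5 := pairing H a0 a1
  rw [← hM] at b4 b5
  have b6 : (∑ ξ, b ξ) ^ 2 * ∑ ξ, d ξ ^ 2 ≤ (∑ ξ, b ξ) ^ 2 * (15 * (δ / 10 ^ 6)) :=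
    mul_le_mul_of_nonneg_left (by linarith) (sq_nonneg _)
  by_contra hcon
  push Not at hcon
  nlinarith

theorem spectral (H : Bich χ) {N : ℝ} (hN : 0 < N) (hQ : (Fintype.card A : ℝ) = N ^ 2)
    {E : Finset A} {w a : A → ℝ} (ha : ∀ ξ, ξ ≠ 0 → a ξ = w ξ ^ 2 - 1 / N) (ha0 : a 0 = -(1 / N))
    (hg : ∀ x, syn χ a x ^ 2 = 1)
    (hy : ∑ ξ, (if ξ = 0 then 0 else (∑ z ∈ E, χ ξ z) / E.card * w ξ + a ξ) ^ 2 ≤ 3 * (N / E.card))
    (hk : 10 ^ 6 * N ^ 3 < (E.card : ℝ) ^ 2) :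
    ∃ ξ, ξ ≠ 0 ∧ 64 / 100 ≤ w ξ ^ 2 := by
  by_contra hcon
  push Not at hcon
  set k : ℝ := (E.card : ℝ) with hkdef
  have hk0 : 0 < k := by
    have h1 : 0 ≤ k := Nat.cast_nonneg _
    rcases h1.lt_or_eq with h | h
    · exact h
    · rw [← h] at hk
      have : 0 < N ^ 3 := by positivity
      nlinarith
  have hkN : k ≤ N ^ 2 := by
    rw [← hQ, hkdef]
    exact_mod_cast Finset.card_le_univ E
  set y : A → ℝ := fun ξ => if ξ = 0 then 0 else (∑ z ∈ E, χ ξ z) / k * w ξ + a ξ with hydef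
  set c : A → ℝ := fun ξ => if ξ ≠ 0 ∧ 4 / N ≤ w ξ ^ 2 then a ξ else 0 with hcdef
  set d : A → ℝ := fun ξ => if ξ ≠ 0 ∧ 4 / N ≤ w ξ ^ 2 then 0 else a ξ with hddef
  have hcd : (fun ξ => c ξ + d ξ) = a := by
    funext ξ
    simp only [hcdef, hddef]
    split_ifs <;> simp
  have hN1 : 0 < 1 / N := by positivity
  have hN4 : 4 / N = 4 * (1 / N) := by ring
  have hcc : ∀ ξ, c ξ = 0 ∨ (ξ ≠ 0 ∧ 4 * (1 / N) ≤ w ξ ^ 2 ∧ c ξ = a ξ) := by
    intro ξ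
    simp only [hcdef]
    split_ifs with h1
    · exact Or.inr ⟨h1.1, hN4 ▸ h1.2, rfl⟩
    · exact Or.inl rfl
  have hc0 : ∀ ξ, 0 ≤ c ξ := by
    intro ξ
    rcases hcc ξ with h1 | ⟨h1, h2, h3⟩
    · exact h1.ge
    · rw [h3, ha ξ h1]
      linarith
  have hw : ∀ ξ, c ξ ≠ 0 → w ξ ^ 2 ≤ 4 / 3 * c ξ := by
    intro ξ h0
    rcases hcc ξ with h1 | ⟨h1, h2, h3⟩
    · exact absurd h1 h0
    · rw [h3, ha ξ h1]
      linarith
  have hcy : ∀ ξ, c ξ ≠ 0 → c ξ = y ξ - (∑ z ∈ E, χ ξ z) / k * w ξ := by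
    intro ξ h0
    rcases hcc ξ with h1 | ⟨h1, h2, h3⟩
    · exact absurd h1 h0
    · simp only [hydef, if_neg h1]
      rw [h3]
      ring
  have hc64 : ∀ ξ, c ξ ≤ 64 / 100 := by
    intro ξ
    rcases hcc ξ with h1 | ⟨h1, h2, h3⟩
    · rw [h1]
      norm_num
    · rw [h3, ha ξ h1]
      linarith [hcon ξ h1]
  have ha1 : ∑ ξ, a ξ ^ 2 = 1 := by
    have h1 := parseval_sq H a
    simp only [hg, Finset.sum_const, Finset.card_univ, nsmul_eq_mul] at h1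
    exact (mul_left_cancel₀ (card_pos_real (A := A)).ne' h1).symm
  have hsum : ∑ ξ, c ξ ^ 2 + ∑ ξ, d ξ ^ 2 = 1 := by
    rw [← ha1, ← Finset.sum_add_distrib]
    refine Finset.sum_congr rfl fun ξ _ => ?_
    simp only [hcdef, hddef]
    split_ifs <;> simp
  have he : ∑ ξ, ((∑ z ∈ E, χ ξ z) / k) ^ 2 = N ^ 2 / k := by
    simp only [div_pow]
    rw [← Finset.sum_div, sum_char_sq H, hQ, ← hkdef]
    field_simp
  have hNbig : 1 ≤ N := by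
    by_contra h
    push Not at h
    have h1 : k ^ 2 ≤ (N ^ 2) ^ 2 := pow_le_pow_left₀ hk0.le hkN 2
    have h2 : 0 < N ^ 3 := by positivity
    nlinarith
  have hh1 : (1 / N) ^ 2 ≤ N / k := by
    rw [div_pow, div_le_div_iff₀ (by positivity) hk0]
    nlinarith
  have hd : ∑ ξ, d ξ ^ 2 ≤ 15 * (N / k) := by
    have h1 : ∀ ξ, d ξ ^ 2 ≤ (if ξ = 0 then (1 / N) ^ 2 else 0) + 2 * y ξ ^ 2 +
        8 * (1 / N) * ((∑ z ∈ E, χ ξ z) / k) ^ 2 := by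
      intro ξ
      have p1 : 0 ≤ 8 * (1 / N) * ((∑ z ∈ E, χ ξ z) / k) ^ 2 := by positivity
      have p2 := sq_nonneg (y ξ)
      by_cases h0 : ξ = 0
      · have : d ξ = -(1 / N) := by
          simp only [hddef, h0]
          simp [ha0]
        rw [this, if_pos h0]
        nlinarith
      · rw [if_neg h0]
        by_cases h2 : 4 / N ≤ w ξ ^ 2
        · have : d ξ = 0 := by
            simp only [hddef]
            rw [if_pos ⟨h0, h2⟩]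
          rw [this]
          nlinarith
        · have h3 : d ξ = a ξ := by
            simp only [hddef]
            rw [if_neg (fun h => h2 h.2)]
          have h4 : y ξ = (∑ z ∈ E, χ ξ z) / k * w ξ + a ξ := by
            simp only [hydef]
            rw [if_neg h0]
          push Not at h2
          rw [hN4] at h2
          set e := (∑ z ∈ E, χ ξ z) / k
          have h5 : e ^ 2 * w ξ ^ 2 ≤ e ^ 2 * (4 * (1 / N)) :=
            mul_le_mul_of_nonneg_left h2.le (sq_nonneg _)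
          rw [h3, h4]
          nlinarith [sq_nonneg (2 * (e * w ξ) + a ξ)]
    have h2 := Finset.sum_le_sum fun ξ (_ : ξ ∈ (univ : Finset A)) => h1 ξ
    rw [Finset.sum_add_distrib, Finset.sum_add_distrib, ← Finset.mul_sum, ← Finset.mul_sum, he,
      Finset.sum_ite_eq'] at h2
    simp only [Finset.mem_univ, if_true] at h2
    have h3 : 8 * (1 / N) * (N ^ 2 / k) = 8 * (N / k) := by field_simp
    rw [h3] at h2
    linarith
  have hδ : 0 < k / N ^ 2 := by positivity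
  have hδ1 : k / N ^ 2 ≤ 1 := by rwa [div_le_one (by positivity)]
  have hhδ : N / k ≤ k / N ^ 2 / 10 ^ 6 := by
    rw [div_div, div_le_div_iff₀ hk0 (by positivity)]
    nlinarith
  have hd0 : 0 ≤ ∑ ξ, d ξ ^ 2 := Finset.sum_nonneg fun ξ _ => sq_nonneg _
  have hg' : ∀ x, syn χ (fun ξ => c ξ + d ξ) x ^ 2 = 1 := by
    rw [hcd]
    exact hg
  have l1 := low_mass H (E := E) (w := w) (y := y) (δ := k / N ^ 2) (h := N / k) hk0 hδ
    (by rw [hQ]; field_simp; rfl) hhδ hδ1 hg' hc0 hw hcy hy hd (by linarith)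
  have l2 := high_part H hδ hhδ hg' hc0 hd hc64
  have l3 : ∑ ξ, (if c ξ ^ 2 ≤ k / N ^ 2 / 1000 then c ξ else 0) ^ 2 +
      ∑ ξ, (if c ξ ^ 2 ≤ k / N ^ 2 / 1000 then 0 else c ξ) ^ 2 = ∑ ξ, c ξ ^ 2 := by
    rw [← Finset.sum_add_distrib]
    refine Finset.sum_congr rfl fun ξ _ => ?_
    split_ifs <;> simp
  have l4 : N / k ≤ 1 / 10 ^ 6 := hhδ.trans (by linarith)
  linarith

end Pool.Agent.MP_942673_co.Nb
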